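import Pool.Agent.Y582.CG.Neg
import Pool.Agent.Y582.CG.Cont

/-!
# Both questions are independent of ZFC for every uncountable number of copies

For an infinite set `ι` let `GX ι` and `HX ι` be the direct sums of `ι` copies of `ℤ(2)` and of
`ℤ(3)`; the groups of the problem are the case `#ι = ℵ₁`.

* Martin's axiom for `κ` dense sets can be forced over every ground model, and it implies that for
  every infinite `ι` with `#ι ≤ κ` and all `m, n ≥ 2` the direct sums of `ι` copies of `ℤ(m)` and of
  `ℤ(n)` are homeomorphic, both for the finest `ℵ₀`-bounded group topologies `𝔊` and for the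
  pro-countable topologies `ϱ`.
* Adding `2^κ` Cohen reals forces that for every uncountable `ι` in the ground model with
  `#ι ≤ κ` the spaces `GX ι` and `HX ι` are homeomorphic neither for `𝔊` nor for `ϱ`.

The forcing language is the one of `Pool.Agent.Helper669.Forcing`: a sentence is the set of the
conditions which force it, `fnot`, `fand`, `fall` are the primitive connectives and `fimp`, `fex`
are defined from them classically; a name for a subset of a ground model set `X` is a map sending
`x : X` to a set of conditions, and `meets N` says that the generic filter meets `N`. The sentences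
`FrakHomeoNX ι P` and `RhoHomeoNX ι P` are the translations into the forcing language of the
propositions `FrakHomeoX ι` and `RhoHomeoX ι` (all four are in `Pool.Agent.Y582.CG.Neg`), which say,
in terms of neighbourhoods of `0`, that the spaces are homeomorphic; the theorem also records that
they are equivalent to the existence of a homeomorphism. In the same way `MartinHolds P X` is the
translation of `MartinFor X` (both are in `Pool.Agent.W684.FM.Defs`), which is equivalent to
Martin's axiom for `#X` dense sets. The topology `frakG K` is the finest `ℵ₀`-bounded group topology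
of `K` and `rho K` is the pro-countable topology (files `Pool.Agent.H38R3.QFinal`, `QTop`).
-/

set_option autoImplicit false

namespace Pool.Agent.Results.MP_8ff4bd_gt.EveryCardinal

open Cardinal H38Q Pool.Agent.W684 Pool.Agent.Helper669.Forcing Pool.Agent.W684.FM
  Pool.Agent.W631.CG Pool.Agent.Y582.CG

/-- (1) For every infinite set `X` there is a preordered set `P` of forcing conditions such that
every condition forces that all cardinals of the ground model are cardinals, that `ω₁` is preserved
and that Martin's axiom for `#X` dense sets holds; the two forms of this axiom are equivalent.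
(2) Martin's axiom for `κ` dense sets implies that for every infinite set `ι` with `#ι ≤ κ` and all
`m, n ≥ 2` the direct sums of `ι` copies of `ℤ(m)` and of `ℤ(n)` are homeomorphic for the
topologies `𝔊` and also for the topologies `ϱ`.
(3) For every infinite set `X` there is a preordered set `P` of forcing conditions such that every
condition forces that all cardinals of the ground model are cardinals, that `ω₁` is preserved, and,
for every uncountable set `ι` with `#ι ≤ #X`, that `(GX ι, 𝔊)`, `(HX ι, 𝔊)` are not homeomorphic and
that `(GX ι, ϱ)`, `(HX ι, ϱ)` are not homeomorphic.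
(4) The sentences used in (3) are the translations of propositions equivalent to the existence of
homeomorphisms, where `𝔊` is the finest `ℵ₀`-bounded group topology. -/
theorem result :
    (∀ (X : Type) [Infinite X], (∃ (P : Type) (_ : Preorder P), Nonempty P ∧ ∀ p : P,
      p ∈ CardinalsPreserved.{0, 0} P ∧ p ∈ OmegaOnePreserved P ∧ p ∈ MartinHolds P X) ∧
      (MartinFor X ↔ MartinAxiomCard #X)) ∧
    (∀ κ : Cardinal.{0}, MartinAxiomCard κ → ∀ (ι : Type) [Infinite ι], #ι ≤ κ →
      ∀ m n : ℕ, 2 ≤ m → 2 ≤ n →
        Nonempty (@Homeomorph (ι →₀ ZMod m) (ι →₀ ZMod n) (frakG _) (frakG _)) ∧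
        Nonempty (@Homeomorph (ι →₀ ZMod m) (ι →₀ ZMod n) (rho _) (rho _))) ∧
    (∀ (X : Type) [Infinite X], ∃ (P : Type) (_ : Preorder P), Nonempty P ∧ ∀ p : P,
      p ∈ CardinalsPreserved.{0, 0} P ∧ p ∈ OmegaOnePreserved P ∧
        ∀ (ι : Type) [Uncountable ι], #ι ≤ #X →
          p ∈ fnot (FrakHomeoNX ι P) ∧ p ∈ fnot (RhoHomeoNX ι P)) ∧
    (∀ ι : Type,
      (FrakHomeoX ι ↔ Nonempty (@Homeomorph (GX ι) (HX ι) (frakG (GX ι)) (frakG (HX ι)))) ∧
      (RhoHomeoX ι ↔ Nonempty (@Homeomorph (GX ι) (HX ι) (rho (GX ι)) (rho (HX ι)))) ∧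
      IsLeast (OmegaTops (GX ι)) (frakG (GX ι)) ∧ IsLeast (OmegaTops (HX ι)) (frakG (HX ι))) := by
  refine ⟨fun X _ => ⟨exists_forcing X, martinFor_iff⟩,
    fun κ hMA ι _ hι m n hm hn => homeo_all hMA ι hι hm hn, fun X _ => ?_,
    fun ι => ⟨frakHomeoX_iff ι, rhoHomeoX_iff ι, isLeast_frakG _, isLeast_frakG _⟩⟩
  refine ⟨Fn (Set X) K3, inferInstance, ⟨⟨∅, fun _ => 0⟩⟩, fun p => ?_⟩
  refine ⟨Fn.pccc.cardinalsPreserved p, Fn.pccc.omegaOnePreserved p, fun ι _ hι => ?_⟩
  have hJ : #ι < #(Set X) := by
    rw [Cardinal.mk_set]
    exact hι.trans_lt (Cardinal.cantor _)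
  have hOm : #Om1 = ℵ₁ := Cardinal.mk_ord_toType _
  have h1 : ℵ₁ ≤ #ι := by
    rw [← Cardinal.succ_aleph0]
    exact Order.succ_le_of_lt Cardinal.aleph0_lt_mk
  obtain ⟨g⟩ : Nonempty (Om1 ↪ ι) := by
    have h2 : #Om1 ≤ #ι := by rw [hOm]; exact h1
    exact h2
  exact ⟨not_frak g.injective hJ p, not_rho g.injective hJ p⟩

end Pool.Agent.Results.MP_8ff4bd_gt.EveryCardinal
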